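import Pool.Agent.H206R2.Tower.Six

/-! Consequences for `α ^ π` algebraic, `α > 0` real algebraic, with `L = log α`. -/

set_option autoImplicit false

namespace Pool.Agent.H206R2.Tower

open Pool.Agent.H301R2.SSE Pool.Agent.H301R2.Nine

open Real (pi)

theorem piC : ¬ IsAlgebraic ℚ ((Real.pi : ℝ) : ℂ) := trC_pi

theorem piC0 : ((Real.pi : ℝ) : ℂ) ≠ 0 := by exact_mod_cast Real.pi_ne_zero

/-- Baker for `1, L` -/
theorem bk {L : ℝ} (hL0 : L ≠ 0) (hL : IsAlgebraic ℚ (Real.exp L)) {a b : ℂ}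
    (ha : IsAlgebraic ℚ a) (hb : IsAlgebraic ℚ b) (h : a + b * (L : ℂ) = 0) : a = 0 ∧ b = 0 := by
  have := pi_log hL0 hL (a := a) (b := 0) (c := b) ha isAlgebraic_zero hb (by
    linear_combination h)
  exact ⟨this.1, this.2.2⟩

theorem Vpi {L : ℝ} (hL0 : L ≠ 0) (hL : IsAlgebraic ℚ (Real.exp L))
    (hM : (Real.pi : ℂ) * (L : ℂ) ∈ LB) {y : ℂ} (hy : y ∈ Lt) (hy' : (Real.pi : ℂ) * y ∈ Lt) :
    ∃ a b : ℂ, IsAlgebraic ℚ a ∧ IsAlgebraic ℚ b ∧ y = a + b * L := by
  by_contra hcon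
  refine six' 1 (Real.pi : ℂ) 1 L y (fun a b ha hb h => lin_of_tr piC ha hb (by
    linear_combination h)) ?_ (by rw [one_mul]; exact Lt_one)
    (by rw [one_mul]; exact LB_Lt (real_mem hL)) (by rw [one_mul]; exact hy)
    (by rw [mul_one]; exact LB_Lt pi_mem) (LB_Lt hM) hy'
  intro a b c ha hb hc h
  by_cases hc0 : c = 0
  · subst hc0
    obtain ⟨h1, h2⟩ := bk hL0 hL ha hb (by linear_combination h)
    exact ⟨h1, h2, rfl⟩
  · exfalso
    apply hcon
    refine ⟨-a * c⁻¹, -b * c⁻¹, ha.neg.mul hc.inv, hb.neg.mul hc.inv, ?_⟩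
    field_simp
    linear_combination h

variable {L : ℝ}

theorem b_sq (hL0 : L ≠ 0) (hL : IsAlgebraic ℚ (Real.exp L))
    (hM : (Real.pi : ℂ) * (L : ℂ) ∈ LB) : ((Real.pi : ℂ)) ^ 2 ∉ Lt := by
  intro h
  obtain ⟨a, b, ha, hb, e⟩ := Vpi hL0 hL hM (LB_Lt pi_mem) (by rw [← sq]; exact h)
  have := pi_log hL0 hL (a := a) (b := -1) (c := b) ha isAlgebraic_one.neg hb (by
    linear_combination -e)
  exact one_ne_zero (neg_eq_zero.mp this.2.1)

theorem b_inv (hL0 : L ≠ 0) (hL : IsAlgebraic ℚ (Real.exp L))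
    (hM : (Real.pi : ℂ) * (L : ℂ) ∈ LB) : 1 / (Real.pi : ℂ) ∉ Lt := by
  intro h
  obtain ⟨a, b, ha, hb, e⟩ := Vpi hL0 hL hM h (by
    rw [mul_one_div_cancel piC0]; exact Lt_one)
  have h1 : (1 : ℂ) = a * Real.pi + b * (Real.pi * L) := by
    have h2 := congrArg (fun v => (Real.pi : ℂ) * v) e
    simp only [mul_one_div_cancel piC0] at h2
    linear_combination h2
  have h3 : (1 : ℂ) ∈ LB := by
    rw [h1]
    exact LB.add_mem (LB_mul ha pi_mem) (LB_mul hb hM)
  exact one_ne_zero (LB_alg h3 isAlgebraic_one)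

theorem b_sqL (hL0 : L ≠ 0) (hL : IsAlgebraic ℚ (Real.exp L))
    (hM : (Real.pi : ℂ) * (L : ℂ) ∈ LB) : (Real.pi : ℂ) ^ 2 * L ∉ Lt := by
  intro h
  have hLC : (L : ℂ) ≠ 0 := by exact_mod_cast hL0
  obtain ⟨a, b, ha, hb, e⟩ := Vpi hL0 hL hM (LB_Lt hM) (by
    have e : (Real.pi : ℂ) * (Real.pi * L) = (Real.pi : ℂ) ^ 2 * L := by ring
    rw [e]; exact h)
  have ha0 : a = 0 := LBz ha (LB.sub_mem (LB_mul hb (real_mem hL)) hM) (by linear_combination -e)
  subst ha0
  apply piC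
  have h2 : (Real.pi : ℂ) = b := by
    apply mul_right_cancel₀ hLC
    linear_combination e
  rw [h2]; exact hb

theorem b_L2 (hL0 : L ≠ 0) (hL : IsAlgebraic ℚ (Real.exp L))
    (hM : (Real.pi : ℂ) * (L : ℂ) ∈ LB) : (Real.pi : ℂ) * L ^ 2 ∉ Lt := by
  intro h
  have hLC : (L : ℂ) ≠ 0 := by exact_mod_cast hL0
  have hLm : (L : ℂ) ∈ LB := real_mem hL
  refine six' 1 (L : ℂ) 1 Real.pi (Real.pi * L) (fun a b ha hb h => bk hL0 hL ha hb (by
    linear_combination h)) ?_ (by rw [one_mul]; exact Lt_one)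
    (by rw [one_mul]; exact LB_Lt pi_mem) (by rw [one_mul]; exact LB_Lt hM)
    (by rw [mul_one]; exact LB_Lt hLm) (by rw [mul_comm]; exact LB_Lt hM) (by
      have e : (L : ℂ) * (Real.pi * L) = (Real.pi : ℂ) * L ^ 2 := by ring
      rw [e]; exact h)
  intro a b c ha hb hc h
  have ha0 : a = 0 := LBz ha (LB.add_mem (LB_mul hb pi_mem) (LB_mul hc hM))
    (by linear_combination h)
  subst ha0
  obtain ⟨h1, h2⟩ := bk hL0 hL hb hc (by
    have h3 : (Real.pi : ℂ) * (b + c * L) = 0 := by linear_combination h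
    exact (mul_eq_zero.mp h3).resolve_left piC0)
  exact ⟨rfl, h1, h2⟩

theorem b_Linv (hL0 : L ≠ 0) (hL : IsAlgebraic ℚ (Real.exp L))
    (hM : (Real.pi : ℂ) * (L : ℂ) ∈ LB) : 1 / (L : ℂ) ∉ Lt := by
  intro h
  have hLC : (L : ℂ) ≠ 0 := by exact_mod_cast hL0
  have hLm : (L : ℂ) ∈ LB := real_mem hL
  refine six' 1 (L : ℂ) (1 / L) 1 Real.pi (fun a b ha hb h => bk hL0 hL ha hb (by
    linear_combination h)) ?_ (by rw [one_mul]; exact h)
    (by rw [one_mul]; exact Lt_one) (by rw [one_mul]; exact LB_Lt pi_mem)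
    (by rw [mul_one_div_cancel hLC]; exact Lt_one) (by rw [mul_one]; exact LB_Lt hLm)
    (by rw [mul_comm]; exact LB_Lt hM)
  intro a b c ha hb hc h
  have h2 : a + (b * L + c * (Real.pi * L)) = 0 := by
    have : (L : ℂ) * (a * (1 / L) + b * 1 + c * Real.pi) = a + (b * L + c * (Real.pi * L)) := by
      field_simp; ring
    rw [← this, h, mul_zero]
  have ha0 : a = 0 := LBz ha (LB.add_mem (LB_mul hb hLm) (LB_mul hc hM)) h2
  subst ha0
  obtain ⟨h3, h4⟩ := lin_of_tr piC hb hc (by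
    have h5 : (L : ℂ) * (b + c * Real.pi) = 0 := by linear_combination h2
    exact (mul_eq_zero.mp h5).resolve_left hLC)
  exact ⟨rfl, h3, h4⟩

theorem b_KN (hL0 : L ≠ 0) (hM : (Real.pi : ℂ) * (L : ℂ) ∈ LB)
    (hK : ((Real.pi : ℂ) * L) ^ 2 ∈ Lt) (hN : 1 / ((Real.pi : ℂ) * L) ∈ Lt) : False := by
  have hLC : (L : ℂ) ≠ 0 := by exact_mod_cast hL0
  have hs0 : (Real.pi : ℂ) * L ≠ 0 := mul_ne_zero piC0 hLC
  have hs := tr_of_LB hM hs0
  refine six' 1 ((Real.pi : ℂ) * L) (1 / (Real.pi * L)) 1 (Real.pi * L)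
    (fun a b ha hb h => lin_of_tr hs ha hb (by linear_combination h)) ?_
    (by rw [one_mul]; exact hN) (by rw [one_mul]; exact Lt_one)
    (by rw [one_mul]; exact LB_Lt hM) (by rw [mul_one_div_cancel hs0]; exact Lt_one)
    (by rw [mul_one]; exact LB_Lt hM) (by rw [← sq]; exact hK)
  intro a b c ha hb hc h
  refine quad hs ha hb hc ?_
  have : ((Real.pi : ℂ) * L) * (a * (1 / (Real.pi * L)) + b * 1 + c * (Real.pi * L))
      = a + b * ((Real.pi : ℂ) * L) + c * ((Real.pi : ℂ) * L) ^ 2 := by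
    have hp := piC0
    field_simp
  rw [← this, h, mul_zero]

theorem b_mu (hL0 : L ≠ 0) (hL : IsAlgebraic ℚ (Real.exp L))
    (hM : (Real.pi : ℂ) * (L : ℂ) ∈ LB) {μ : ℂ} (hμ : IsAlgebraic ℚ (Complex.exp μ))
    (hind : ∀ c : ℂ, IsAlgebraic ℚ c → μ ≠ c * L) : (Real.pi : ℂ) * μ ∉ Lt := by
  intro h
  have hμm : μ ∈ LB := LB_log hμ
  obtain ⟨a, b, ha, hb, e⟩ := Vpi hL0 hL hM (LB_Lt hμm) h
  have ha0 : a = 0 := LBz ha (LB.sub_mem (LB_mul hb (real_mem hL)) hμm) (by
    linear_combination -e)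
  subst ha0
  exact hind b hb (by linear_combination e)

/-- `L / π`, if `exp (π L)` is algebraic -/
theorem b_div (hL0 : L ≠ 0) (hL : IsAlgebraic ℚ (Real.exp L))
    (hP : IsAlgebraic ℚ (Real.exp (Real.pi * L))) : (L : ℂ) / Real.pi ∉ Lt := by
  intro h
  have hM : (Real.pi : ℂ) * (L : ℂ) ∈ LB := by
    have := real_mem hP
    rwa [Complex.ofReal_mul] at this
  obtain ⟨a, b, ha, hb, e⟩ := Vpi hL0 hL hM h (by
    rw [mul_div_cancel₀ _ piC0]; exact LB_Lt (real_mem hL))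
  have e2 : (L : ℂ) - a * Real.pi - b * (Real.pi * L) = 0 := by
    have h2 := congrArg (fun v => (Real.pi : ℂ) * v) e
    simp only [mul_div_cancel₀ _ piC0] at h2
    linear_combination h2
  let ω : Fin 3 → ℂ := ![(L : ℂ), Real.pi * Complex.I, ((Real.pi * L : ℝ) : ℂ)]
  have halg : ∀ i, IsAlgebraic ℚ (Complex.exp (ω i)) := by
    intro i
    fin_cases i
    · change IsAlgebraic ℚ (Complex.exp (L : ℂ))
      rw [← Complex.ofReal_exp]; exact toC hL
    · change IsAlgebraic ℚ (Complex.exp (Real.pi * Complex.I))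
      rw [Complex.exp_pi_mul_I]; exact isAlgebraic_one.neg
    · change IsAlgebraic ℚ (Complex.exp ((Real.pi * L : ℝ) : ℂ))
      rw [← Complex.ofReal_exp]; exact toC hP
  have hω : LinearIndependent ℚ ω := by
    rw [Fintype.linearIndependent_iff]
    intro g hg
    rw [Fin.sum_univ_three] at hg
    have hre := congrArg Complex.re hg
    have him := congrArg Complex.im hg
    simp [ω, Rat.smul_def] at hre him
    have h1 : g 1 = 0 := him
    have h2 : ((g 0 : ℝ) + (g 2 : ℝ) * Real.pi) * L = 0 := by linear_combination hre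
    have h3 : (g 0 : ℝ) + (g 2 : ℝ) * Real.pi = 0 := (mul_eq_zero.mp h2).resolve_right hL0
    have h4 : g 2 = 0 := by
      by_contra hne
      have hne' : (g 2 : ℝ) ≠ 0 := by exact_mod_cast hne
      apply irrational_pi
      refine ⟨-(g 0) / g 2, ?_⟩
      push_cast
      field_simp
      linear_combination -h3
    have h5 : g 0 = 0 := by
      rw [h4] at h3
      have : (g 0 : ℝ) = 0 := by simpa using h3
      exact_mod_cast this
    intro i
    fin_cases i
    · exact h5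
    · exact h1
    · exact h4
  have hb3 := Pool.Agent.H297R2.baker_inhom ω halg hω 0 isAlgebraic_zero
    ![1, Complex.I * a, -b] (by
      intro i
      fin_cases i
      · exact isAlgebraic_one
      · exact algI.mul ha
      · exact hb.neg) (by
      rw [Fin.sum_univ_three]
      simp only [ω, Matrix.cons_val_zero, Matrix.cons_val_one, Matrix.cons_val]
      have hI : Complex.I * Complex.I = -1 := Complex.I_mul_I
      push_cast
      linear_combination e2 + (a * Real.pi : ℂ) * hI)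
  have h1 := hb3.2 0
  simp only [Matrix.cons_val_zero] at h1
  exact one_ne_zero h1

end Pool.Agent.H206R2.Tower
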