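import Pool.Agent.H206R2.Tower.Base
import Pool.Agent.H206R2.OneVar.F

/-! `1 / (π - a)` if `α ^ π` is algebraic. -/

set_option autoImplicit false

namespace Pool.Agent.H206R2.Tower

open Pool.Agent.H301R2.SSE Pool.Agent.H301R2.Nine

/-- Baker for `1, L, π, π L` with `exp L`, `exp (π L)` algebraic -/
theorem bk3 {L : ℝ} (hL0 : L ≠ 0) (hL : IsAlgebraic ℚ (Real.exp L))
    (hP : IsAlgebraic ℚ (Real.exp (Real.pi * L))) {a b c d : ℂ} (ha : IsAlgebraic ℚ a)
    (hb : IsAlgebraic ℚ b) (hc : IsAlgebraic ℚ c) (hd : IsAlgebraic ℚ d)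
    (h : d + a * (L : ℂ) + b * Real.pi + c * (Real.pi * L) = 0) :
    a = 0 ∧ b = 0 ∧ c = 0 ∧ d = 0 := by
  let ω : Fin 3 → ℂ := ![(L : ℂ), Real.pi * Complex.I, ((Real.pi * L : ℝ) : ℂ)]
  have halg : ∀ i, IsAlgebraic ℚ (Complex.exp (ω i)) := by
    intro i
    fin_cases i
    · change IsAlgebraic ℚ (Complex.exp (L : ℂ))
      rw [← Complex.ofReal_exp]; exact toC hL
    · change IsAlgebraic ℚ (Complex.exp (Real.pi * Complex.I))
      rw [Complex.exp_pi_mul_I]; exact isAlgebraic_one.neg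
    · change IsAlgebraic ℚ (Complex.exp ((Real.pi * L : ℝ) : ℂ))
      rw [← Complex.ofReal_exp]; exact toC hP
  have hω : LinearIndependent ℚ ω := by
    rw [Fintype.linearIndependent_iff]
    intro g hg
    rw [Fin.sum_univ_three] at hg
    have hre := congrArg Complex.re hg
    have him := congrArg Complex.im hg
    simp [ω, Rat.smul_def] at hre him
    have h1 : g 1 = 0 := him
    have h2 : ((g 0 : ℝ) + (g 2 : ℝ) * Real.pi) * L = 0 := by linear_combination hre
    have h3 : (g 0 : ℝ) + (g 2 : ℝ) * Real.pi = 0 := (mul_eq_zero.mp h2).resolve_right hL0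
    have h4 : g 2 = 0 := by
      by_contra hne
      have hne' : (g 2 : ℝ) ≠ 0 := by exact_mod_cast hne
      apply irrational_pi
      refine ⟨-(g 0) / g 2, ?_⟩
      push_cast
      field_simp
      linear_combination -h3
    have h5 : g 0 = 0 := by
      rw [h4] at h3
      have : (g 0 : ℝ) = 0 := by simpa using h3
      exact_mod_cast this
    intro i
    fin_cases i
    · exact h5
    · exact h1
    · exact h4
  have hb3 := Pool.Agent.H297R2.baker_inhom ω halg hω d hd
    ![a, -Complex.I * b, c] (by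
      intro i
      fin_cases i
      · exact ha
      · exact algI.neg.mul hb
      · exact hc) (by
      rw [Fin.sum_univ_three]
      simp only [ω, Matrix.cons_val_zero, Matrix.cons_val_one, Matrix.cons_val]
      have hI : Complex.I * Complex.I = -1 := Complex.I_mul_I
      push_cast
      linear_combination h - (b * Real.pi : ℂ) * hI)
  have h1 := hb3.2 0
  have h2 := hb3.2 1
  have h3 := hb3.2 2
  simp only [Matrix.cons_val_zero, Matrix.cons_val_one, Matrix.cons_val] at h1 h2 h3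
  exact ⟨h1, (mul_eq_zero.mp h2).resolve_left (neg_ne_zero.mpr Complex.I_ne_zero), h3, hb3.1⟩

theorem b_pole {L : ℝ} (hL0 : L ≠ 0) (hL : IsAlgebraic ℚ (Real.exp L))
    (hP : IsAlgebraic ℚ (Real.exp (Real.pi * L))) {a : ℂ} (ha : IsAlgebraic ℚ a) :
    1 / ((Real.pi : ℂ) - a) ∉ Lt := by
  intro h
  have hM : (Real.pi : ℂ) * (L : ℂ) ∈ LB := by
    have := real_mem hP
    rwa [Complex.ofReal_mul] at this
  obtain ⟨c, d, hc, hd, e⟩ := Vpi hL0 hL hM h (Pool.Agent.H206R2.OneVar.mul_pole piC ha h)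
  have s0 := Pool.Agent.H206R2.OneVar.sub_ne piC ha
  have e2 : (-(c * a) - 1) + (-(d * a)) * (L : ℂ) + c * Real.pi + d * (Real.pi * L) = 0 := by
    have h2 := congrArg (fun v => ((Real.pi : ℂ) - a) * v) e
    simp only [mul_one_div_cancel s0] at h2
    linear_combination -h2
  obtain ⟨_, h2, _, h4⟩ := bk3 hL0 hL hP ((hd.mul ha).neg) hc hd
    (((hc.mul ha).neg).sub isAlgebraic_one) e2
  rw [h2, zero_mul, neg_zero, zero_sub] at h4
  exact one_ne_zero (neg_eq_zero.mp h4)

end Pool.Agent.H206R2.Tower
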