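import Pool.Agent.H301R2.SSE.Nine2

/-! Consequences of the strong six exponentials theorem for a transcendental `t` and a nonzero
`L` such that `L` and `t * L` are algebraic linear combinations of logarithms. -/

set_option autoImplicit false

namespace Pool.Agent.H206R2.Tower

open Pool.Agent.H301R2.SSE Pool.Agent.H301R2.Nine

theorem LBz {a z : ℂ} (ha : IsAlgebraic ℚ a) (hz : z ∈ LB) (h : a + z = 0) : a = 0 := by
  have h1 : z = -a := by linear_combination h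
  have h2 := LB_alg hz (by rw [h1]; exact ha.neg)
  rw [h2, add_zero] at h
  exact h

theorem ne_zero_of_tr {t : ℂ} (ht : ¬ IsAlgebraic ℚ t) : t ≠ 0 := by
  rintro rfl
  exact ht isAlgebraic_zero

theorem tr_of_LB {t : ℂ} (ht : t ∈ LB) (h0 : t ≠ 0) : ¬ IsAlgebraic ℚ t := fun h =>
  h0 (LB_alg ht h)

theorem two_term {s a b : ℂ} (hs : ¬ IsAlgebraic ℚ s) (ha : IsAlgebraic ℚ a)
    (hb : IsAlgebraic ℚ b) (h : a + b * s = 0) : a = 0 ∧ b = 0 := lin_of_tr hs ha hb h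

variable {t L : ℂ}

theorem pAB (ht : ¬ IsAlgebraic ℚ t) (hL0 : L ≠ 0) (hL : L ∈ LB) (hM : t * L ∈ LB)
    (hA : t ∈ LB) (hB : t⁻¹ ∈ LB) : False := by
  have t0 := ne_zero_of_tr ht
  refine six' 1 t L 1 t⁻¹ (fun a b ha hb h => lin_of_tr ht ha hb (by linear_combination h)) ?_
    (by rw [one_mul]; exact LB_Lt hL) (by rw [one_mul]; exact Lt_one)
    (by rw [one_mul]; exact LB_Lt hB) (LB_Lt hM) (by rw [mul_one]; exact LB_Lt hA)
    (by rw [mul_inv_cancel₀ t0]; exact Lt_one)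
  intro a b c ha hb hc h
  have hb0 : b = 0 := LBz hb (LB.add_mem (LB_mul ha hL) (LB_mul hc hB))
    (by linear_combination h)
  subst hb0
  have h2 : c + a * (t * L) = 0 := by
    have : t * (a * L + 0 * 1 + c * t⁻¹) = c + a * (t * L) := by field_simp; ring
    rw [← this, h, mul_zero]
  have hc0 : c = 0 := LBz hc (LB_mul ha hM) h2
  subst hc0
  refine ⟨?_, rfl, rfl⟩
  have h3 : a * (t * L) = 0 := by linear_combination h2
  exact (mul_eq_zero.mp h3).resolve_right (mul_ne_zero t0 hL0)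

/-- `1` and `μ` (with `μ`, `t * μ` in `LB`, not an algebraic multiple of `L`) -/
theorem pAP (ht : ¬ IsAlgebraic ℚ t) (hL0 : L ≠ 0) (hL : L ∈ LB) (hM : t * L ∈ LB)
    (hA : t ∈ LB) {μ : ℂ} (hμ : μ ∈ LB) (htμ : t * μ ∈ LB)
    (hind : ∀ c : ℂ, IsAlgebraic ℚ c → μ ≠ c * L) : False := by
  refine six' 1 t L 1 μ (fun a b ha hb h => lin_of_tr ht ha hb (by linear_combination h)) ?_
    (by rw [one_mul]; exact LB_Lt hL) (by rw [one_mul]; exact Lt_one)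
    (by rw [one_mul]; exact LB_Lt hμ) (LB_Lt hM) (by rw [mul_one]; exact LB_Lt hA)
    (LB_Lt htμ)
  intro a b c ha hb hc h
  have hb0 : b = 0 := LBz hb (LB.add_mem (LB_mul ha hL) (LB_mul hc hμ))
    (by linear_combination h)
  subst hb0
  by_cases hc0 : c = 0
  · subst hc0
    refine ⟨?_, rfl, rfl⟩
    have h3 : a * L = 0 := by linear_combination h
    exact (mul_eq_zero.mp h3).resolve_right hL0
  · exfalso
    refine hind (-a * c⁻¹) (ha.neg.mul hc.inv) ?_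
    field_simp
    linear_combination h

theorem pBP (ht : ¬ IsAlgebraic ℚ t) (hL0 : L ≠ 0) (hL : L ∈ LB) (hM : t * L ∈ LB)
    (hB : t⁻¹ ∈ LB) {μ : ℂ} (hμ : μ ∈ LB) (htμ : t * μ ∈ LB)
    (hind : ∀ c : ℂ, IsAlgebraic ℚ c → μ ≠ c * L) : False := by
  have t0 := ne_zero_of_tr ht
  refine six' 1 t L t⁻¹ μ (fun a b ha hb h => lin_of_tr ht ha hb (by linear_combination h)) ?_
    (by rw [one_mul]; exact LB_Lt hL) (by rw [one_mul]; exact LB_Lt hB)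
    (by rw [one_mul]; exact LB_Lt hμ) (LB_Lt hM) (by rw [mul_inv_cancel₀ t0]; exact Lt_one)
    (LB_Lt htμ)
  intro a b c ha hb hc h
  have h2 : b + (a * (t * L) + c * (t * μ)) = 0 := by
    have : t * (a * L + b * t⁻¹ + c * μ) = b + (a * (t * L) + c * (t * μ)) := by
      field_simp; ring
    rw [← this, h, mul_zero]
  have hb0 : b = 0 := LBz hb (LB.add_mem (LB_mul ha hM) (LB_mul hc htμ)) h2
  subst hb0
  by_cases hc0 : c = 0
  · subst hc0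
    refine ⟨?_, rfl, rfl⟩
    have h3 : a * L = 0 := by linear_combination h
    exact (mul_eq_zero.mp h3).resolve_right hL0
  · exfalso
    refine hind (-a * c⁻¹) (ha.neg.mul hc.inv) ?_
    field_simp
    linear_combination h

theorem pPP (ht : ¬ IsAlgebraic ℚ t) (hL : L ∈ LB) (hM : t * L ∈ LB)
    {μ ν : ℂ} (hμ : μ ∈ LB) (htμ : t * μ ∈ LB) (hν : ν ∈ LB) (htν : t * ν ∈ LB)
    (hind : ∀ a b c : ℂ, IsAlgebraic ℚ a → IsAlgebraic ℚ b → IsAlgebraic ℚ c →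
      a * L + b * μ + c * ν = 0 → a = 0 ∧ b = 0 ∧ c = 0) : False :=
  six' 1 t L μ ν (fun a b ha hb h => lin_of_tr ht ha hb (by linear_combination h)) hind
    (by rw [one_mul]; exact LB_Lt hL) (by rw [one_mul]; exact LB_Lt hμ)
    (by rw [one_mul]; exact LB_Lt hν) (LB_Lt hM) (LB_Lt htμ) (LB_Lt htν)

theorem not_mul {s c : ℂ} (hL0 : L ≠ 0) (hs : ¬ IsAlgebraic ℚ s) (hc : IsAlgebraic ℚ c) :
    s * L ≠ c * L := by
  intro h
  apply hs
  rwa [mul_right_cancel₀ hL0 h]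

theorem tr_inv (ht : ¬ IsAlgebraic ℚ t) : ¬ IsAlgebraic ℚ t⁻¹ := by
  intro h
  apply ht
  rw [← inv_inv t]
  exact h.inv

theorem pAC (ht : ¬ IsAlgebraic ℚ t) (hL0 : L ≠ 0) (hL : L ∈ LB) (hM : t * L ∈ LB)
    (hA : t ∈ LB) (hC : t * (t * L) ∈ LB) : False :=
  pAP ht hL0 hL hM hA hM hC (fun _ hc => not_mul hL0 ht hc)

theorem pAD (ht : ¬ IsAlgebraic ℚ t) (hL0 : L ≠ 0) (hL : L ∈ LB) (hM : t * L ∈ LB)
    (hA : t ∈ LB) (hD : t⁻¹ * L ∈ LB) : False :=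
  pAP ht hL0 hL hM hA hD (by
    rw [mul_inv_cancel_left₀ (ne_zero_of_tr ht)]; exact hL)
    (fun _ hc => not_mul hL0 (tr_inv ht) hc)

theorem pBC (ht : ¬ IsAlgebraic ℚ t) (hL0 : L ≠ 0) (hL : L ∈ LB) (hM : t * L ∈ LB)
    (hB : t⁻¹ ∈ LB) (hC : t * (t * L) ∈ LB) : False :=
  pBP ht hL0 hL hM hB hM hC (fun _ hc => not_mul hL0 ht hc)

theorem pBD (ht : ¬ IsAlgebraic ℚ t) (hL0 : L ≠ 0) (hL : L ∈ LB) (hM : t * L ∈ LB)
    (hB : t⁻¹ ∈ LB) (hD : t⁻¹ * L ∈ LB) : False :=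
  pBP ht hL0 hL hM hB hD (by
    rw [mul_inv_cancel_left₀ (ne_zero_of_tr ht)]; exact hL)
    (fun _ hc => not_mul hL0 (tr_inv ht) hc)

/-- powers of a transcendental number -/
theorem quad (ht : ¬ IsAlgebraic ℚ t) {a b c : ℂ} (ha : IsAlgebraic ℚ a) (hb : IsAlgebraic ℚ b)
    (hc : IsAlgebraic ℚ c) (h : a + b * t + c * t ^ 2 = 0) : a = 0 ∧ b = 0 ∧ c = 0 := by
  by_cases hc0 : c = 0
  · subst hc0
    obtain ⟨h1, h2⟩ := lin_of_tr ht ha hb (by linear_combination h)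
    exact ⟨h1, h2, rfl⟩
  · exfalso
    apply ht
    have h2 : IsAlgebraic ℚ (2 : ℂ) := isAlgebraic_natCast 2
    have h4 : IsAlgebraic ℚ (4 : ℂ) := isAlgebraic_natCast 4
    have h1 : IsAlgebraic ℚ (2 * c * t + b) := by
      apply IsAlgebraic.of_pow (n := 2) (by norm_num)
      have e : (2 * c * t + b) ^ 2 = b ^ 2 - 4 * a * c := by linear_combination 4 * c * h
      rw [e]
      exact (hb.pow 2).sub ((h4.mul ha).mul hc)
    have e : t = (2 * c * t + b - b) * (2 * c)⁻¹ := by field_simp; ring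
    rw [e]
    exact (h1.sub hb).mul (h2.mul hc).inv

theorem pCD (ht : ¬ IsAlgebraic ℚ t) (hL0 : L ≠ 0) (hL : L ∈ LB) (hM : t * L ∈ LB)
    (hC : t * (t * L) ∈ LB) (hD : t⁻¹ * L ∈ LB) : False := by
  have t0 := ne_zero_of_tr ht
  refine pPP ht hL hM hM hC hD (by rw [mul_inv_cancel_left₀ t0]; exact hL) ?_
  intro a b c ha hb hc h
  have h1 : c + a * t + b * t ^ 2 = 0 := by
    have : (t * L⁻¹) * (a * L + b * (t * L) + c * (t⁻¹ * L)) = c + a * t + b * t ^ 2 := by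
      field_simp; ring
    rw [← this, h, mul_zero]
  obtain ⟨h2, h3, h4⟩ := quad ht hc ha hb h1
  exact ⟨h3, h4, h2⟩

/-! With `L`, `M` two logarithms: ratio `L` (rows `1, L`). -/

/-- general form: three elements `1`, `y`, `s * y'`... with ratio `s ∈ LB` nonzero. -/
theorem six_ratio {s y1 y2 : ℂ} (hs : s ∈ LB) (hs0 : s ≠ 0)
    (hy : ∀ a b c : ℂ, IsAlgebraic ℚ a → IsAlgebraic ℚ b → IsAlgebraic ℚ c →
      a + b * y1 + c * y2 = 0 → a = 0 ∧ b = 0 ∧ c = 0)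
    (h1 : y1 ∈ Lt) (h2 : y2 ∈ Lt) (h3 : s * y1 ∈ Lt) (h4 : s * y2 ∈ Lt) : False :=
  six' 1 s 1 y1 y2 (fun a b ha hb h =>
      lin_of_tr (tr_of_LB hs hs0) ha hb (by linear_combination h))
    (fun a b c ha hb hc h => hy a b c ha hb hc (by linear_combination h))
    (by rw [one_mul]; exact Lt_one) (by rw [one_mul]; exact h1) (by rw [one_mul]; exact h2)
    (by rw [mul_one]; exact LB_Lt hs) h3 h4

/-- both `y1`, `y2` in `LB`, quotient transcendental -/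
theorem six_ratio' {s y1 y2 : ℂ} (hs : s ∈ LB) (hs0 : s ≠ 0) (h1 : y1 ∈ LB) (h2 : y2 ∈ LB)
    (hy1 : y1 ≠ 0) (hy : ¬ IsAlgebraic ℚ (y2 / y1)) (h3 : s * y1 ∈ Lt) (h4 : s * y2 ∈ Lt) :
    False := by
  refine six_ratio hs hs0 ?_ (LB_Lt h1) (LB_Lt h2) h3 h4
  intro a b c ha hb hc h
  have ha0 : a = 0 := LBz ha (LB.add_mem (LB_mul hb h1) (LB_mul hc h2))
    (by linear_combination h)
  subst ha0
  obtain ⟨h5, h6⟩ := lin_of_tr hy hb hc (by
    have : y1⁻¹ * (0 + b * y1 + c * y2) = b + c * (y2 / y1) := by field_simp; ring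
    rw [← this, h, mul_zero])
  exact ⟨rfl, h5, h6⟩

/-- `s` and `s⁻¹` and one more `y`, both `y` and `s * y` in `LB` -/
theorem six_ratio_inv {s y : ℂ} (hs : s ∈ LB) (hs0 : s ≠ 0) (hsi : s⁻¹ ∈ LB)
    (hy0 : y ≠ 0) (h1 : y ∈ LB) (h3 : s * y ∈ LB) : False := by
  refine six_ratio' hs hs0 hsi h1 (inv_ne_zero hs0) ?_ (by
    rw [mul_inv_cancel₀ hs0]; exact Lt_one) (LB_Lt h3)
  rw [div_inv_eq_mul, mul_comm]
  exact tr_of_LB h3 (mul_ne_zero hs0 hy0)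

/-- A,E: `t`, `t * L ^ 2` -/
theorem pAE (ht : ¬ IsAlgebraic ℚ t) (hL0 : L ≠ 0) (hL : L ∈ LB) (hM : t * L ∈ LB)
    (hA : t ∈ LB) (hE : t * L ^ 2 ∈ LB) : False := by
  refine six_ratio' hL hL0 hA hM (ne_zero_of_tr ht) ?_ (by
    rw [mul_comm]; exact LB_Lt hM) ?_
  · rw [mul_div_cancel_left₀ _ (ne_zero_of_tr ht)]; exact tr_of_LB hL hL0
  · have e : L * (t * L) = t * L ^ 2 := by ring
    rw [e]; exact LB_Lt hE

/-- A,H: `t`, `1 / L` -/
theorem pAH (ht : ¬ IsAlgebraic ℚ t) (hL0 : L ≠ 0) (hL : L ∈ LB) (hM : t * L ∈ LB)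
    (hA : t ∈ LB) (hH : L⁻¹ ∈ LB) : False :=
  six_ratio_inv hL hL0 hH (ne_zero_of_tr ht) hA (by rw [mul_comm]; exact hM)

/-- B,E -/
theorem pBE (ht : ¬ IsAlgebraic ℚ t) (hL0 : L ≠ 0) (hL : L ∈ LB) (hM : t * L ∈ LB)
    (hB : t⁻¹ ∈ LB) (hE : t * L ^ 2 ∈ LB) : False := by
  have t0 := ne_zero_of_tr ht
  refine six_ratio' hM (mul_ne_zero t0 hL0) hB hL (inv_ne_zero t0) ?_ ?_ ?_
  · rw [div_inv_eq_mul, mul_comm]; exact tr_of_LB hM (mul_ne_zero t0 hL0)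
  · have e : t * L * t⁻¹ = L := by field_simp
    rw [e]; exact LB_Lt hL
  · have e : t * L * L = t * L ^ 2 := by ring
    rw [e]; exact LB_Lt hE

/-- B,N: `1 / t`, `1 / (t * L)` -/
theorem pBN (ht : ¬ IsAlgebraic ℚ t) (hL0 : L ≠ 0) (hL : L ∈ LB) (hM : t * L ∈ LB)
    (hB : t⁻¹ ∈ LB) (hN : (t * L)⁻¹ ∈ LB) : False := by
  have t0 := ne_zero_of_tr ht
  refine six_ratio_inv hM (mul_ne_zero t0 hL0) hN (inv_ne_zero t0) hB ?_
  have e : t * L * t⁻¹ = L := by field_simp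
  rw [e]; exact hL

/-- G,E: `L ^ 2`, `t * L ^ 2` -/
theorem pGE (ht : ¬ IsAlgebraic ℚ t) (hL0 : L ≠ 0) (hL : L ∈ LB) (hM : t * L ∈ LB)
    (hG : L ^ 2 ∈ LB) (hE : t * L ^ 2 ∈ LB) : False := by
  refine six_ratio' hL hL0 hL hM hL0 ?_ ?_ ?_
  · rw [mul_div_cancel_right₀ _ hL0]; exact ht
  · have e : L * L = L ^ 2 := by ring
    rw [e]; exact LB_Lt hG
  · have e : L * (t * L) = t * L ^ 2 := by ring
    rw [e]; exact LB_Lt hE

/-- H,E: `1 / L`, `t * L ^ 2` -/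
theorem pHE (ht : ¬ IsAlgebraic ℚ t) (hL0 : L ≠ 0) (hL : L ∈ LB) (hM : t * L ∈ LB)
    (hH : L⁻¹ ∈ LB) (hE : t * L ^ 2 ∈ LB) : False := by
  have t0 := ne_zero_of_tr ht
  refine six_ratio_inv hL hL0 hH (mul_ne_zero t0 hL0) hM ?_
  have e : L * (t * L) = t * L ^ 2 := by ring
  rw [e]; exact hE

/-- K,E: `(t * L) ^ 2`, `t * L ^ 2` -/
theorem pKE (ht : ¬ IsAlgebraic ℚ t) (hL0 : L ≠ 0) (hL : L ∈ LB) (hM : t * L ∈ LB)
    (hK : (t * L) ^ 2 ∈ LB) (hE : t * L ^ 2 ∈ LB) : False := by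
  have t0 := ne_zero_of_tr ht
  refine six_ratio' hM (mul_ne_zero t0 hL0) hL hM hL0 ?_ ?_ ?_
  · rw [mul_div_cancel_right₀ _ hL0]; exact ht
  · have e : t * L * L = t * L ^ 2 := by ring
    rw [e]; exact LB_Lt hE
  · have e : t * L * (t * L) = (t * L) ^ 2 := by ring
    rw [e]; exact LB_Lt hK

/-- N,E: `1 / (t * L)`, `t * L ^ 2` -/
theorem pNE (ht : ¬ IsAlgebraic ℚ t) (hL0 : L ≠ 0) (hL : L ∈ LB) (hM : t * L ∈ LB)
    (hN : (t * L)⁻¹ ∈ LB) (hE : t * L ^ 2 ∈ LB) : False := by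
  have t0 := ne_zero_of_tr ht
  refine six_ratio_inv hM (mul_ne_zero t0 hL0) hN hL0 hL ?_
  have e : t * L * L = t * L ^ 2 := by ring
  rw [e]; exact hE

/-- K,N: `(t * L) ^ 2`, `1 / (t * L)` -/
theorem pKN (ht : ¬ IsAlgebraic ℚ t) (hL0 : L ≠ 0) (hM : t * L ∈ LB)
    (hK : (t * L) ^ 2 ∈ LB) (hN : (t * L)⁻¹ ∈ LB) : False := by
  have t0 := ne_zero_of_tr ht
  refine six_ratio_inv hM (mul_ne_zero t0 hL0) hN (mul_ne_zero t0 hL0) hM ?_
  have e : t * L * (t * L) = (t * L) ^ 2 := by ring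
  rw [e]; exact hK

end Pool.Agent.H206R2.Tower
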